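import Pool.Agent.W670.TL.Defs

set_option autoImplicit false

namespace Pool.Agent.W649.TL

open NumberField Pool.Agent.W670.TL

theorem D_nonneg_cnt (K : Type) [Field K] [NumberField K] : 0 ≤ D K := abs_nonneg _

theorem cnt (h1 : S_EXT) (h2 : S_NPR) (h3 : S_HER) : S_CNT := by
  classical
  intro K hK n q ℓ Z κ Y hn hq hqℓ hZ hκ hY hlt
  have hsplit : ∀ (P : Finset ℕ), (∀ p, p ∈ P ↔ p ≤ Z ∧ p.Prime) →
      (P.card : ℝ) ≤ Real.logb 2 (D K) + (exc (q * n) ℓ κ Y).ncard * Real.logb 2 Y := by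
    intro P hP
    let A : Finset ℕ := P.filter (fun p : ℕ => ∃ a : K, a ^ q = (p : K))
    let B : Finset ℕ := P.filter (fun p : ℕ => ¬ ∃ a : K, a ^ q = (p : K))
    have hAB : A.card + B.card = P.card := by
      exact Finset.card_filter_add_card_filter_not (s := P) (fun p : ℕ => ∃ a : K, a ^ q = (p : K))
    have hA : (A.card : ℝ) ≤ Real.logb 2 (D K) := by
      have h := h2 K q Z (D K) hq.two_le le_rfl
      have heq : {p : ℕ | p.Prime ∧ p ≤ Z ∧ ∃ a : K, a ^ q = (p : K)} = (A : Set ℕ) := by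
        ext p
        constructor
        · rintro ⟨hp1, hp2, hp3⟩
          exact Finset.mem_coe.2 (Finset.mem_filter.2 ⟨(hP p).2 ⟨hp2, hp1⟩, hp3⟩)
        · intro hp
          obtain ⟨hp1, hp2⟩ := Finset.mem_filter.1 (Finset.mem_coe.1 hp)
          exact ⟨((hP p).1 hp1).2, ((hP p).1 hp1).1, hp2⟩
      rw [heq, Set.ncard_coe_finset] at h
      exact h
    have hfin : (exc (q * n) ℓ κ Y).Finite :=
      (h3 Y).subset (fun M hM => ⟨hM.2.choose, hM.2.choose_spec.1⟩)
    have hY0 : ∀ p ∈ B, D K ^ q * ((q : ℝ) ^ q * (p : ℝ) ^ (q - 1)) ^ n ≤ Y := by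
      intro p hp
      have hpZ : (p : ℝ) ≤ (Z : ℝ) := by
        exact_mod_cast ((hP p).1 (Finset.mem_filter.1 hp).1).1
      rw [hY]
      have h0 : 0 ≤ D K ^ q := pow_nonneg (D_nonneg_cnt K) _
      gcongr
    have hM : ∀ p ∈ B, ∃ M ∈ exc (q * n) ℓ κ Y, ∃ a : M, a ^ q = (p : M) := by
      intro p hp
      have hp' := Finset.mem_filter.1 hp
      obtain ⟨M, hMn, hM1, hM2, hM3, hM4⟩ :=
        h1 K hK n q ℓ p hn hq hqℓ ((hP p).1 hp'.1).2 hp'.2
      refine ⟨M, ⟨hM1, hMn, hM3.trans (hY0 p hp), ?_⟩, hM2⟩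
      have h4 : D M ^ κ ≤ Y ^ κ :=
        Real.rpow_le_rpow (D_nonneg_cnt M) (hM3.trans (hY0 p hp)) hκ
      have h5 : (tors K ℓ : ℝ) ≤ (tors M ℓ : ℝ) := by exact_mod_cast hM4
      exact lt_of_le_of_lt h4 (lt_of_lt_of_le hlt h5)
    choose! F hF1 hF2 using hM
    have hfib : B.card = ∑ M ∈ hfin.toFinset, (B.filter (fun p => F p = M)).card :=
      Finset.card_eq_sum_card_fiberwise (fun p hp => by
        have := hF1 p hp
        simpa using this)
    have hbd : ∀ M ∈ hfin.toFinset, ((B.filter (fun p => F p = M)).card : ℝ) ≤ Real.logb 2 Y := by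
      intro M hMm
      obtain ⟨-, hMn, hM3, -⟩ := hfin.mem_toFinset.1 hMm
      have h := h2 M q Z Y hq.two_le hM3
      refine le_trans ?_ h
      have hsub : ((B.filter (fun p => F p = M) : Finset ℕ) : Set ℕ) ⊆
          {p : ℕ | p.Prime ∧ p ≤ Z ∧ ∃ a : M, a ^ q = (p : M)} := by
        intro p hp
        obtain ⟨hp1, hp2⟩ := Finset.mem_filter.1 (Finset.mem_coe.1 hp)
        have hp3 := (hP p).1 (Finset.mem_filter.1 hp1).1
        refine ⟨hp3.2, hp3.1, ?_⟩
        have := hF2 p hp1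
        rw [hp2] at this
        exact this
      have hfin2 : {p : ℕ | p.Prime ∧ p ≤ Z ∧ ∃ a : M, a ^ q = (p : M)}.Finite :=
        (Set.finite_Iic Z).subset fun p hp => hp.2.1
      have h6 := Set.ncard_le_ncard hsub hfin2
      rw [Set.ncard_coe_finset] at h6
      exact_mod_cast h6
    have hB : (B.card : ℝ) ≤ (exc (q * n) ℓ κ Y).ncard * Real.logb 2 Y := by
      rw [hfib]
      push_cast
      refine (Finset.sum_le_sum hbd).trans ?_
      rw [Finset.sum_const, nsmul_eq_mul, Set.ncard_eq_toFinset_card _ hfin]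
    have h7 : (P.card : ℝ) = (A.card : ℝ) + (B.card : ℝ) := by
      rw [← hAB]; push_cast; rfl
    rw [h7]
    exact add_le_add hA hB
  refine hsplit _ fun p => ?_
  simp

end Pool.Agent.W649.TL

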